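import Pool.Agent.H39.TO.Targets

/-!
# Row FSY of the board `toh_modules`
-/

set_option autoImplicit false

namespace Pool.Agent.H42.TOH

open Pool.Agent.H57.CP Pool.Agent.H39.TO

theorem arg_sub (p k : ℕ) (hp : 0 < p) (hk : k ≤ p) :
    ((p - k : ℕ) : ℝ) * Real.pi / p = Real.pi - k * Real.pi / p := by
  have hp' : (p : ℝ) ≠ 0 := by exact_mod_cast hp.ne'
  rw [Nat.cast_sub hk]
  field_simp

theorem pf_FSY : T_FSY := by
  intro p k k' C hp hk hk'
  have hpR : (0 : ℝ) < p := by exact_mod_cast hp
  have hpi := Real.pi_pos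
  refine ⟨?_, ?_, ?_, ?_⟩
  · unfold fk
    ring
  · unfold fk
    rw [arg_sub p k hp hk, arg_sub p k' hp hk', Real.sin_pi_sub, Real.sin_pi_sub,
      Real.cos_pi_sub, Real.cos_pi_sub]
    ring
  · intro hC h0 hlt hsum
    have e : k' = p - k := by omega
    unfold fk
    rw [e, arg_sub p k hp hk, Real.sin_pi_sub, Real.cos_pi_sub]
    have h1 := Real.sin_sq_add_cos_sq ((k : ℝ) * Real.pi / p)
    have h2 := sq_nonneg (Real.sin ((k : ℝ) * Real.pi / p))
    nlinarith [mul_le_mul_of_nonneg_right hC h2]
  · intro hC h0 hlt h0' hlt'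
    have ha : 0 < (k : ℝ) * Real.pi / p := by
      have : (0 : ℝ) < k := by exact_mod_cast h0
      positivity
    have ha' : 0 < (k' : ℝ) * Real.pi / p := by
      have : (0 : ℝ) < k' := by exact_mod_cast h0'
      positivity
    have hb : (k : ℝ) * Real.pi / p < Real.pi := by
      rw [div_lt_iff₀ hpR, mul_comm]
      have : (k : ℝ) < p := by exact_mod_cast hlt
      exact mul_lt_mul_of_pos_left this hpi
    have hb' : (k' : ℝ) * Real.pi / p < Real.pi := by
      rw [div_lt_iff₀ hpR, mul_comm]
      have : (k' : ℝ) < p := by exact_mod_cast hlt'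
      exact mul_lt_mul_of_pos_left this hpi
    unfold fk
    set x := (k : ℝ) * Real.pi / p with hx
    set y := (k' : ℝ) * Real.pi / p with hy
    have hsx : 0 < Real.sin x := Real.sin_pos_of_pos_of_lt_pi ha hb
    have hsy : 0 < Real.sin y := Real.sin_pos_of_pos_of_lt_pi ha' hb'
    have hcos : Real.cos (x + y) < 1 := by
      rcases lt_or_eq_of_le (Real.cos_le_one (x + y)) with h | h
      · exact h
      · exfalso
        rw [Real.cos_eq_one_iff_of_lt_of_lt (by linarith) (by linarith)] at h
        linarith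
    rw [Real.cos_add] at hcos
    have h3 : Real.sin x * Real.sin y ≤ C * Real.sin x * Real.sin y := by
      have h4 := mul_pos hsx hsy
      nlinarith
    linarith

end Pool.Agent.H42.TOH
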