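import Pool.Agent.H39.TO.Targets
import Pool.Agent.H83.CP.LB

/-!
# Row LBT of the board `toh_modules`
-/

set_option autoImplicit false

namespace Pool.Agent.H42.TOH

open Pool.Agent.H57.CP Pool.Agent.H39.TO Pool.Agent.H83.CP.LB

theorem pf_LBT : T_LBT := by
  intro P _ _ rk β hp hf hc
  constructor
  · obtain ⟨Φ, Ψ, hΦ, hΨ, h⟩ := hc.two
    exact ⟨img rk β Φ, img rk β Ψ, fl_img hΦ, fl_img hΨ, fun h' => h ((eqv_iff Φ Ψ).1 h')⟩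
  · intro Φ Ψ Θ h1 h2 h3
    obtain ⟨Φ, hΦ, rfl⟩ := fl_ex h1
    obtain ⟨Ψ, hΨ, rfl⟩ := fl_ex h2
    obtain ⟨Θ, hΘ, rfl⟩ := fl_ex h3
    rw [eqv_iff, eqv_iff, eqv_iff]
    exact hc.le_two Φ Ψ Θ hΦ hΨ hΘ

end Pool.Agent.H42.TOH
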