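import Pool.Agent.H39.TO.Targets
import Pool.Agent.H5.CP.LE

/-!
# Row LET of the board `toh_modules`
-/

set_option autoImplicit false

namespace Pool.Agent.H42.TOH

open Pool.Agent.H57.CP Pool.Agent.H57.CP.Cell Pool.Agent.H83.CP.LD Pool.Agent.H5.CP
open Pool.Agent.H39.TO

variable {K : Geo}

theorem vts_card (hK : IsGeo K) (b : Set (Set H3)) (hb : b ∈ K.F) :
    {v : Cell K | Cell.rk v = 0 ∧ v < fc b hb}.encard = (vts b).encard := by
  have h0 : vts b = (Cell.real o) '' {v : Cell K | Cell.rk v = 0 ∧ v < fc b hb} := by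
    ext x
    constructor
    · rintro ⟨e, he, hx⟩
      have heE : e ∈ K.E := (hK.fs b hb).1 he
      have hxV : x ∈ K.V := by
        obtain ⟨u, hu, u', hu', -, hee⟩ := hK.ed _ heE
        rw [hee] at hx
        rcases hx with rfl | hx
        · exact hu
        · rw [Set.mem_singleton_iff] at hx; subst hx; exact hu'
      exact ⟨vt x hxV, ⟨rfl, lt_of_le_of_ne (vt_le_fc.2 ⟨e, he, hx⟩) (by rintro ⟨⟩)⟩, rfl⟩
    · rintro ⟨v, ⟨hv, hlt⟩, rfl⟩
      cases v <;> simp [Cell.rk] at hv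
      exact vt_le_fc.1 hlt.le
  rw [h0, Set.InjOn.encard_image]
  rintro u ⟨hu, -⟩ w ⟨hw, -⟩ h
  cases u <;> simp [Cell.rk] at hu
  cases w <;> simp [Cell.rk] at hw
  have h' : _ = _ := h
  simp only [Cell.real] at h'
  subst h'
  rfl

theorem eds_card (hK : IsGeo K) (x : H3) (hx : x ∈ K.V) :
    {e : Cell K | Cell.rk e = 1 ∧ vt x hx < e}.encard = (eds K x).encard := by
  have h0 : eds K x = (im1 (Cell.rk (K := K)) (Cell.real o)) ''
      {e : Cell K | Cell.rk e = 1 ∧ vt x hx < e} := by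
    ext e
    constructor
    · rintro ⟨he, hxe⟩
      exact ⟨ed e he, ⟨rfl, lt_of_le_of_ne (vt_le_ed.2 hxe) (by rintro ⟨⟩)⟩, im1_ed hK e he⟩
    · rintro ⟨e, ⟨he, hlt⟩, rfl⟩
      cases e <;> simp [Cell.rk] at he
      rename_i a ha
      rw [im1_ed hK]
      exact ⟨ha, vt_le_ed.1 hlt.le⟩
  rw [h0, Set.InjOn.encard_image]
  rintro u ⟨hu, -⟩ w ⟨hw, -⟩ h
  cases u <;> simp [Cell.rk] at hu
  cases w <;> simp [Cell.rk] at hw
  rw [im1_ed hK, im1_ed hK] at h
  subst h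
  rfl

theorem pf_LET : T_LET := by
  intro K hK
  refine ⟨?_, ?_, ?_⟩
  · intro hC
    refine ⟨?_, ?_⟩
    · obtain ⟨Φ, Ψ, h1, h2, h3⟩ := hC.two
      obtain ⟨Φ', h1', rfl⟩ := fF_surj hK h1
      obtain ⟨Ψ', h2', rfl⟩ := fF_surj hK h2
      exact ⟨Φ', Ψ', h1', h2', fun h => h3 ((orbit_iff hK _ _).1 h)⟩
    · intro Φ Ψ Θ h1 h2 h3
      rw [orbit_iff hK, orbit_iff hK, orbit_iff hK]
      exact hC.le_two _ _ _ (fF_fl hK h1) (fF_fl hK h2) (fF_fl hK h3)
  · ext n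
    constructor
    · rintro ⟨f, hf, hn⟩
      cases f <;> simp [Cell.rk] at hf
      rename_i b hb
      rw [vts_card hK] at hn
      exact ⟨b, hb, hn⟩
    · rintro ⟨b, hb, hn⟩
      refine ⟨fc b hb, rfl, ?_⟩
      rw [vts_card hK]
      exact hn
  · ext n
    constructor
    · rintro ⟨v, hv, hn⟩
      cases v <;> simp [Cell.rk] at hv
      rename_i x hx
      rw [eds_card hK] at hn
      exact ⟨x, hx, hn⟩
    · rintro ⟨x, hx, hn⟩
      refine ⟨vt x hx, rfl, ?_⟩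
      rw [eds_card hK]
      exact hn

end Pool.Agent.H42.TOH
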