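import Pool.Agent.H39.TO.Targets

/-!
# Row OOO of the board `toh_modules`
-/

set_option autoImplicit false

namespace Pool.Agent.H42.TOH

open Pool.Agent.H57.CP Pool.Agent.H39.TO

theorem pf_OOO : T_OOO := by
  intro K _ hT h0 h1 h2
  refine ⟨hT.two, hT.le_two, ?_⟩
  intro Φ Ψ hΦ hΨ hadj
  rcases hadj with ⟨ha, hb, hc⟩ | ⟨ha, hb, hc⟩ | ⟨ha, hb, hc⟩
  · exact h0 Φ Ψ ⟨hΦ, hΨ, ha, hb, hc⟩
  · exact h1 Φ Ψ ⟨hΦ, hΨ, ha, hb, hc⟩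
  · exact h2 Φ Ψ ⟨hΦ, hΨ, ha, hb, hc⟩

end Pool.Agent.H42.TOH
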