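import Pool.Agent.H39.TO.Targets

/-!
# Row PAR of the board `toh_modules`
-/

set_option autoImplicit false

namespace Pool.Agent.H42.TOH

open Pool.Agent.H57.CP Pool.Agent.H39.TO

theorem exists_walk (P Q : Fg → Fg → Prop) (F : Fg → Prop)
    (hP : ∀ Φ, F Φ → ∃ Ψ, P Φ Ψ ∧ F Ψ) (hQ : ∀ Φ, F Φ → ∃ Ψ, Q Φ Ψ ∧ F Ψ)
    (Φ : Fg) (hΦ : F Φ) :
    ∃ Ψ : ℕ → Fg, Ψ 0 = Φ ∧ (∀ k, F (Ψ k)) ∧
      ∀ k, P (Ψ (2 * k)) (Ψ (2 * k + 1)) ∧ Q (Ψ (2 * k + 1)) (Ψ (2 * k + 2)) := by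
  classical
  have hP' : ∀ Φ : Fg, ∃ Ψ, F Φ → P Φ Ψ ∧ F Ψ := by
    intro Φ
    by_cases h : F Φ
    · obtain ⟨Ψ, h1⟩ := hP Φ h
      exact ⟨Ψ, fun _ => h1⟩
    · exact ⟨Φ, fun h' => absurd h' h⟩
  have hQ' : ∀ Φ : Fg, ∃ Ψ, F Φ → Q Φ Ψ ∧ F Ψ := by
    intro Φ
    by_cases h : F Φ
    · obtain ⟨Ψ, h1⟩ := hQ Φ h
      exact ⟨Ψ, fun _ => h1⟩
    · exact ⟨Φ, fun h' => absurd h' h⟩
  choose a ha using hP'
  choose b hb using hQ'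
  let W : ℕ → Fg := fun n => Nat.rec Φ (fun n x => if Even n then a x else b x) n
  have hs : ∀ n, W (n + 1) = if Even n then a (W n) else b (W n) := fun n => rfl
  have hF : ∀ n, F (W n) := by
    intro n
    induction n with
    | zero => exact hΦ
    | succ n ih =>
      rw [hs]
      split_ifs with h
      · exact (ha _ ih).2
      · exact (hb _ ih).2
  refine ⟨W, rfl, hF, fun k => ⟨?_, ?_⟩⟩
  · rw [hs, if_pos (even_two_mul k)]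
    exact (ha _ (hF _)).1
  · have hodd : ¬ Even (2 * k + 1) := by
      rw [Nat.not_even_iff_odd]
      exact ⟨k, rfl⟩
    have h2 := hs (2 * k + 1)
    rw [if_neg hodd] at h2
    have h3 : W (2 * k + 2) = b (W (2 * k + 1)) := h2
    rw [h3]
    exact (hb (W (2 * k + 1)) (hF (2 * k + 1))).1

theorem walk_odd (heq : T_EQV) (K : Geo) (hT : Two K) (Ψ : ℕ → Fg) (hfl : ∀ k, Fl K (Ψ k))
    (hne : ∀ k, ¬ Eqv K (Ψ (2 * k)) (Ψ (2 * k + 2))) (j : ℕ) :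
    Eqv K (Ψ 0) (Ψ (4 * j)) ∧ ¬ Eqv K (Ψ 0) (Ψ (4 * j + 2)) := by
  obtain ⟨hr, hsy, htr, -⟩ := heq K
  have hstep : ∀ k, Eqv K (Ψ (2 * k)) (Ψ (2 * k + 4)) := by
    intro k
    have h1 := hne k
    have h2 := hne (k + 1)
    have e1 : 2 * (k + 1) = 2 * k + 2 := by ring
    rw [e1] at h2
    rcases hT.le_two (Ψ (2 * k)) (Ψ (2 * k + 2)) (Ψ (2 * k + 4)) (hfl _) (hfl _) (hfl _) with
      h | h | h
    · exact absurd h h1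
    · exact absurd h h2
    · exact h
  have hfirst : Eqv K (Ψ 0) (Ψ (4 * j)) := by
    induction j with
    | zero => exact hr _
    | succ j ih =>
      have h := hstep (2 * j)
      have e1 : 2 * (2 * j) = 4 * j := by ring
      rw [e1] at h
      have e2 : 4 * (j + 1) = 4 * j + 4 := by ring
      rw [e2]
      exact htr _ _ _ ih h
  refine ⟨hfirst, fun h => ?_⟩
  have h1 := hne (2 * j)
  have e1 : 2 * (2 * j) = 4 * j := by ring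
  rw [e1] at h1
  exact h1 (htr _ _ _ (hsy _ _ hfirst) h)

theorem pf_PAR (hfla : T_FLA) (heq : T_EQV) (hcls : T_CLS) (hcyf : T_CYF) (hcyv : T_CYV) :
    T_PAR2 := by
  intro K hK hT
  obtain ⟨hio, -⟩ := hcls K hK hT
  obtain ⟨hr, hsy, htr, -⟩ := heq K
  have hA0 : ∀ Φ, Fl K Φ → ∃ Ψ, A0 K Φ Ψ ∧ Fl K Ψ := by
    intro Φ h
    obtain ⟨Ψ, h1, -⟩ := (hfla K hK Φ h).1
    exact ⟨Ψ, h1, h1.2.1⟩
  have hA1 : ∀ Φ, Fl K Φ → ∃ Ψ, A1 K Φ Ψ ∧ Fl K Ψ := by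
    intro Φ h
    obtain ⟨Ψ, h1, -⟩ := (hfla K hK Φ h).2.1
    exact ⟨Ψ, h1, h1.2.1⟩
  have hA2 : ∀ Φ, Fl K Φ → ∃ Ψ, A2 K Φ Ψ ∧ Fl K Ψ := by
    intro Φ h
    obtain ⟨Ψ, h1, -⟩ := (hfla K hK Φ h).2.2
    exact ⟨Ψ, h1, h1.2.1⟩
  -- the common part
  have key : ∀ (Q R : Fg → Fg → Prop) (Ψ : ℕ → Fg), (∀ k, Fl K (Ψ k)) →
      (∀ k, Q (Ψ (2 * k)) (Ψ (2 * k + 1)) ∧ R (Ψ (2 * k + 1)) (Ψ (2 * k + 2))) →
      ((∀ Φ Θ, Q Φ Θ → Eqv K Φ Θ) ∨ (∀ Φ Θ, Q Φ Θ → ¬ Eqv K Φ Θ)) →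
      ((∀ Φ Θ, R Φ Θ → Eqv K Φ Θ) ∨ (∀ Φ Θ, R Φ Θ → ¬ Eqv K Φ Θ)) →
      ∀ n : ℕ, Odd n → Ψ (2 * n) = Ψ 0 →
      ((∀ Φ Θ, Q Φ Θ → Eqv K Φ Θ) ↔ (∀ Φ Θ, R Φ Θ → Eqv K Φ Θ)) := by
    intro Q R Ψ hfl hw hq hr' n hn hclose
    obtain ⟨j, hj⟩ := hn
    have hno : ¬ ∀ k, ¬ Eqv K (Ψ (2 * k)) (Ψ (2 * k + 2)) := by
      intro hne
      have h := (walk_odd heq K hT Ψ hfl hne j).2
      have e : 4 * j + 2 = 2 * n := by omega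
      rw [e, hclose] at h
      exact h (hr _)
    constructor
    · intro hqi
      rcases hr' with h | h
      · exact h
      · exfalso
        apply hno
        intro k hk
        exact h _ _ (hw k).2 (htr _ _ _ (hsy _ _ (hqi _ _ (hw k).1)) hk)
    · intro hri
      rcases hq with h | h
      · exact h
      · exfalso
        apply hno
        intro k hk
        exact h _ _ (hw k).1 (htr _ _ _ hk (hsy _ _ (hri _ _ (hw k).2)))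
  constructor
  · intro n hn hodd
    obtain ⟨f, hf, hfn⟩ := hn
    obtain ⟨hfE, e, he⟩ := hK.fs f hf
    obtain ⟨x, hx, y, hy, hxy, hexy⟩ := hK.ed e (hfE he)
    have hfl : Fl K (x, e, f) := ⟨by simp [hexy], he, hf⟩
    obtain ⟨Ψ, h0, hflΨ, hw⟩ := exists_walk (A0 K) (A1 K) (Fl K) hA0 hA1 _ hfl
    have hsz : (vts (Ψ 0).2.2).encard = (n : ℕ∞) := by rw [h0]; exact hfn
    obtain ⟨hc1, hc2, -⟩ := hcyf K Ψ (n : ℕ∞) hK hw hsz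
    have hclose : Ψ (2 * n) = Ψ 0 := hc2 n ((hc1 n hodd.pos).2 ⟨n, rfl, dvd_refl n⟩)
    exact key (A0 K) (A1 K) Ψ hflΨ hw (hio 0) (hio 1) n hodd hclose
  · intro n hn hodd
    obtain ⟨x, hx, hxn⟩ := hn
    obtain ⟨e, he, hxe⟩ := hK.ve x hx
    have h2 := hK.ef e he
    have hne : {f | f ∈ K.F ∧ e ∈ f}.Nonempty := by
      apply Set.nonempty_of_ncard_ne_zero
      rw [h2]
      norm_num
    obtain ⟨f, hf, hef⟩ := hne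
    have hfl : Fl K (x, e, f) := ⟨hxe, hef, hf⟩
    obtain ⟨Ψ, h0, hflΨ, hw⟩ := exists_walk (A1 K) (A2 K) (Fl K) hA1 hA2 _ hfl
    have hsz : (eds K (Ψ 0).1).encard = (n : ℕ∞) := by rw [h0]; exact hxn
    obtain ⟨hc1, hc2, -⟩ := hcyv K Ψ (n : ℕ∞) hK hw hsz
    have hclose : Ψ (2 * n) = Ψ 0 := hc2 n ((hc1 n hodd.pos).2 ⟨n, rfl, dvd_refl n⟩)
    exact key (A1 K) (A2 K) Ψ hflΨ hw (hio 1) (hio 2) n hodd hclose

end Pool.Agent.H42.TOH
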