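import Pool.Agent.H39.TO.Targets

/-!
# Row SPV of the board `toh_modules`
-/

set_option autoImplicit false

namespace Pool.Agent.H42.TOH

open Pool.Agent.H57.CP Pool.Agent.H39.TO

/-- the Minkowski product as a bilinear form -/
noncomputable def mB : LinearMap.BilinForm ℝ V4 := LinearMap.mk₂ ℝ mk
  (by intro x y z; simp [mk]; ring) (by intro c x y; simp [mk]; ring)
  (by intro x y z; simp [mk]; ring) (by intro c x y; simp [mk]; ring)

theorem mB_apply (x y : V4) : mB x y = mk x y := rfl

theorem mB_refl : mB.IsRefl := by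
  intro x y h
  rw [mB_apply] at h ⊢
  unfold mk at h ⊢
  linarith

/-- a vector orthogonal to a point of `H3` and to itself vanishes -/
theorem eq_zero_of_orth (x : H3) (u : V4) (h : mk x.1 u = 0) (hu : mk u u = 0) : u = 0 := by
  obtain ⟨h1, h2⟩ := x.2
  set a := x.1 0 with ha
  set b := x.1 1 with hb
  set c := x.1 2 with hc
  set t := x.1 3 with ht
  have e1 : t * t = 1 + a * a + b * b + c * c := by
    have := h1
    unfold mk at this
    rw [← ha, ← hb, ← hc, ← ht] at this
    linarith
  have e2 : t * u 3 = a * u 0 + b * u 1 + c * u 2 := by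
    have := h
    unfold mk at this
    rw [← ha, ← hb, ← hc, ← ht] at this
    linarith
  have e3 : u 3 * u 3 = u 0 * u 0 + u 1 * u 1 + u 2 * u 2 := by
    have := hu
    unfold mk at this
    linarith
  have hcs : (a * u 0 + b * u 1 + c * u 2) ^ 2 ≤
      (a * a + b * b + c * c) * (u 0 * u 0 + u 1 * u 1 + u 2 * u 2) := by
    nlinarith [sq_nonneg (a * u 1 - b * u 0), sq_nonneg (a * u 2 - c * u 0),
      sq_nonneg (b * u 2 - c * u 1)]
  have e4 : (a * u 0 + b * u 1 + c * u 2) ^ 2 =
      (1 + a * a + b * b + c * c) * (u 0 * u 0 + u 1 * u 1 + u 2 * u 2) := by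
    rw [← e2, ← e1, ← e3]
    ring
  have h5 : u 0 * u 0 + u 1 * u 1 + u 2 * u 2 ≤ 0 := by
    rw [e4] at hcs
    linarith
  have n0 := mul_self_nonneg (u 0)
  have n1 := mul_self_nonneg (u 1)
  have n2 := mul_self_nonneg (u 2)
  have g0 : u 0 = 0 := mul_self_eq_zero.mp (by linarith)
  have g1 : u 1 = 0 := mul_self_eq_zero.mp (by linarith)
  have g2 : u 2 = 0 := mul_self_eq_zero.mp (by linarith)
  have g3 : u 3 = 0 := by
    rw [g0, g1, g2] at e3
    exact mul_self_eq_zero.mp (by linarith)
  ext i
  fin_cases i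
  · exact g0
  · exact g1
  · exact g2
  · exact g3

theorem pf_SPV : T_SPV := by
  intro V g hV hg hfix
  obtain ⟨x0, hx0⟩ := hV
  set U : Submodule ℝ V4 := Submodule.span ℝ (Subtype.val '' V) with hU
  have hxU : x0.1 ∈ U := Submodule.subset_span ⟨x0, hx0, rfl⟩
  -- vectors orthogonal to `U` are fixed
  have horth : ∀ w ∈ mB.orthogonal U, g w = w := by
    clear hfix
    induction hg using Submonoid.closure_induction with
    | mem r hr =>
      intro w hw
      obtain ⟨n, -, hnU, rfl⟩ := hr
      have h0 : mk n w = 0 := hw n hnU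
      ext i
      have h1 : (Pool.Agent.H57.CP.refl n) w i = w i + 2 * mk n w * n i := rfl
      rw [h1, h0]
      ring
    | one =>
      intro w _
      rfl
    | mul a b _ _ ha hb =>
      intro w hw
      have h1 : (a * b) w = a (b w) := rfl
      rw [h1, hb w hw, ha w hw]
  have hcompl : IsCompl U (mB.orthogonal U) := by
    rw [LinearMap.BilinForm.isCompl_orthogonal_iff_disjoint mB_refl]
    rw [Submodule.disjoint_def]
    intro u hu hu'
    exact eq_zero_of_orth x0 u (hu' x0.1 hxU) (hu' u hu)
  have hfixU : ∀ u ∈ U, g u = u := by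
    intro u hu
    induction hu using Submodule.span_induction with
    | mem y hy =>
      obtain ⟨x, hx, rfl⟩ := hy
      exact hfix x hx
    | zero => exact map_zero g
    | add a b _ _ ha hb => rw [map_add, ha, hb]
    | smul c a _ ha => rw [map_smul, ha]
  apply LinearMap.ext
  intro y
  have hy : y ∈ U ⊔ mB.orthogonal U := by
    rw [hcompl.sup_eq_top]
    trivial
  obtain ⟨u, hu, w, hw, rfl⟩ := Submodule.mem_sup.mp hy
  rw [map_add, hfixU u hu, horth w hw]
  rfl

end Pool.Agent.H42.TOH
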